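import Pool.Agent.Q60.D3H.StmA

set_option autoImplicit false

/-! Project D3H, job A4 (SIG): the signature of the imaginary quadratic field belonging to a
subgroup. -/

namespace Pool.Agent.Q261.D3H

open NumberField Module Pool.Agent.H204R3.CM
open Pool.Agent.W547.KB (CMPair cc IsHalf emb_cc)
open Pool.Agent.W547.LD (IsImag stab hs tr_hs exists_sqrt_pos)
open Pool.Agent.W547.LD.Comb (OrbT psum tr eps)
open Pool.Agent.W547.LN (exists_smul)
open Pool.Agent.Q60.D3H (SigB S_sig)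

lemma count {R : Type} [Fintype R] (p : R → Prop) [DecidablePred p] :
    (∑ r, (if p r then (1 : ℚ) else -1)) =
      (Nat.card {r // p r} : ℚ) - Nat.card {r // ¬ p r} ∧
    Nat.card R = Nat.card {r // p r} + Nat.card {r // ¬ p r} := by
  have h1 : Nat.card {r // p r} = (Finset.univ.filter p).card := by
    rw [Nat.card_eq_fintype_card, Fintype.card_subtype]
  have h2 : Nat.card {r // ¬ p r} = (Finset.univ.filter (fun r => ¬ p r)).card := by
    rw [Nat.card_eq_fintype_card, Fintype.card_subtype]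
  rw [h1, h2]
  constructor
  · rw [Finset.sum_ite, Finset.sum_const, Finset.sum_const, nsmul_eq_mul, nsmul_eq_mul]
    ring
  · rw [Nat.card_eq_fintype_card, ← Finset.card_univ,
      Finset.card_filter_add_card_filter_not]

theorem sig : S_sig := by
  classical
  intro B L _ _ _ _ j hj hinj N hN φ hst
  obtain ⟨δ0, d, hd, hδ0, hfix, hcc, him⟩ := exists_sqrt_pos j hN
  have hδ0ne : δ0 ≠ 0 := by
    intro h
    rw [h, map_zero] at him
    simp at him
  have hmemN : ∀ τ : L ≃ₐ[ℚ] L, τ δ0 = δ0 → τ ∈ N := by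
    intro τ hτ
    by_contra hcon
    have h1 := hfix _ (hN.2 τ hcon)
    have h2 : (cc L * τ) δ0 = cc L (τ δ0) := rfl
    rw [h2, hτ, hcc] at h1
    exact hδ0ne (self_eq_neg.1 h1.symm)
  -- the element of the field
  have hex : ∃ δ : B.E, φ δ = δ0 := by
    let φa : B.E →ₐ[ℚ] L := RingHom.equivRatAlgHom B.E L φ
    have h1 : δ0 ∈ φa.fieldRange := by
      rw [← IsGalois.fixedField_fixingSubgroup φa.fieldRange,
        IntermediateField.mem_fixedField_iff]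
      intro τ hτ
      rw [IntermediateField.mem_fixingSubgroup_iff] at hτ
      refine hfix τ (hst ?_)
      show tr τ (hs B j φ) = hs B j φ
      rw [tr_hs]
      congr 1
      ext a
      exact hτ (φ a) ⟨a, rfl⟩
    obtain ⟨δ, hδ⟩ := h1
    exact ⟨δ, hδ⟩
  obtain ⟨δ, hδ⟩ := hex
  have hδd : δ * δ = -(d : B.E) := by
    apply φ.injective
    rw [map_mul, hδ, hδ0, map_neg, map_natCast]
  have hμ : j δ0 * j δ0 = -(d : ℂ) := by
    rw [← map_mul, hδ0, map_neg, map_natCast]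
  have hμc : starRingEnd ℂ (j δ0) = -(j δ0) := by
    rw [← emb_cc, hcc, map_neg]
  choose lift hlift using hj
  have hlift2 : ∀ ψ : B.E →+* L, lift (j.comp ψ) = ψ := by
    intro ψ
    ext a
    exact j.injective (RingHom.congr_fun (hlift (j.comp ψ)) a)
  let R : Type := {ρ : B.E →+* ℂ // ρ δ = j δ0}
  have hR : ∀ ρ : R, lift ρ.1 δ = δ0 := by
    intro ρ
    apply j.injective
    exact (RingHom.congr_fun (hlift ρ.1) δ).trans ρ.2
  let f : R → OrbT N (hs B j φ) := fun ρ => ⟨hs B j (lift ρ.1), by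
    obtain ⟨g, hg⟩ := exists_smul B φ (lift ρ.1)
    refine ⟨g, hmemN g ?_, by rw [tr_hs, hg]⟩
    have h1 := RingHom.congr_fun hg δ
    rw [hR] at h1
    calc g δ0 = g (φ δ) := by rw [hδ]
      _ = δ0 := h1⟩
  have hf : Function.Bijective f := by
    constructor
    · intro ρ ρ' h
      have h1 : hs B j (lift ρ.1) = hs B j (lift ρ'.1) := congrArg Subtype.val h
      have h2 := hinj h1
      apply Subtype.ext
      rw [← hlift ρ.1, ← hlift ρ'.1, h2]
    · rintro ⟨S, τ, hτ, hS⟩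
      refine ⟨⟨j.comp (τ • φ), ?_⟩, ?_⟩
      · show j (τ (φ δ)) = j δ0
        rw [hδ, hfix τ hτ]
      · apply Subtype.ext
        show hs B j (lift (j.comp (τ • φ))) = S
        rw [hlift2, ← tr_hs, hS]
  have hps : ∀ (_ : Fintype (OrbT N (hs B j φ))), psum N (hs B j φ) 1 =
      ∑ ρ : R, (if ρ.1 ∈ B.Φ then (1 : ℚ) else -1) := by
    intro _
    unfold psum
    refine (Fintype.sum_bijective f hf _ _ fun ρ => ?_).symm
    have h1 : (1 : L ≃ₐ[ℚ] L) ∈ hs B j (lift ρ.1) ↔ ρ.1 ∈ B.Φ := by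
      show j.comp ((1 : L ≃ₐ[ℚ] L) • lift ρ.1) ∈ B.Φ ↔ _
      rw [one_smul, hlift]
    show _ = eps (hs B j (lift ρ.1)) 1
    unfold eps
    by_cases h2 : ρ.1 ∈ B.Φ
    · rw [if_pos h2, if_pos (h1.2 h2)]
    · rw [if_neg h2, if_neg (fun h3 => h2 (h1.1 h3))]
  have hcard : Nat.card (OrbT N (hs B j φ)) = Nat.card R := (Nat.card_eq_of_bijective f hf).symm
  obtain ⟨c1, c2⟩ := count (fun ρ : R => ρ.1 ∈ B.Φ)
  -- the two numbers
  have ea : Nat.card {ρ : R // ρ.1 ∈ B.Φ} = Nat.card {ρ : B.Φ // ρ.1 δ = j δ0} :=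
    Nat.card_congr ⟨fun ρ => ⟨⟨ρ.1.1, ρ.2⟩, ρ.1.2⟩, fun ρ => ⟨⟨ρ.1.1, ρ.2⟩, ρ.1.2⟩,
      fun _ => rfl, fun _ => rfl⟩
  have hcj : ∀ ρ : B.E →+* ℂ, ComplexEmbedding.conjugate (ComplexEmbedding.conjugate ρ) = ρ := by
    intro ρ
    ext a
    simp [ComplexEmbedding.conjugate_coe_eq]
  have eb : Nat.card {ρ : R // ¬ ρ.1 ∈ B.Φ} = Nat.card {ρ : B.Φ // ρ.1 δ = -(j δ0)} := by
    refine Nat.card_congr ⟨fun ρ => ⟨⟨ComplexEmbedding.conjugate ρ.1.1, ?_⟩, ?_⟩,
      fun ρ => ⟨⟨ComplexEmbedding.conjugate ρ.1.1, ?_⟩, ?_⟩, fun ρ => ?_, fun ρ => ?_⟩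
    · by_contra hcon
      exact ρ.2 ((B.isCMType ρ.1.1).2 hcon)
    · show starRingEnd ℂ (ρ.1.1 δ) = _
      rw [ρ.1.2, hμc]
    · show starRingEnd ℂ (ρ.1.1 δ) = _
      rw [ρ.2, map_neg, hμc, neg_neg]
    · exact (B.isCMType ρ.1.1).1 ρ.1.2
    · exact Subtype.ext (Subtype.ext (hcj _))
    · exact Subtype.ext (Subtype.ext (hcj _))
  refine ⟨max (Nat.card {ρ : B.Φ // ρ.1 δ = j δ0}) (Nat.card {ρ : B.Φ // ρ.1 δ = -(j δ0)}),
    ⟨d, δ, j δ0, hd, hδd, hμ, rfl⟩, ?_⟩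
  rw [hps, c1, hcard, c2, ea, eb, Nat.cast_max]
  push_cast
  rcases le_total (Nat.card {ρ : B.Φ // ρ.1 δ = j δ0} : ℚ)
    (Nat.card {ρ : B.Φ // ρ.1 δ = -(j δ0)}) with h | h
  · rw [max_eq_right h, abs_of_nonpos (by linarith)]
    ring
  · rw [max_eq_left h, abs_of_nonneg (by linarith)]
    ring

end Pool.Agent.Q261.D3H
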