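import Pool.Agent.Q60.D3H.StmA

set_option autoImplicit false

/-! Project D3H, job A2 (UMU): unitary type with respect to a quadratic field. -/

namespace Pool.Agent.Q261.D3H

open Polynomial Module
open Pool.Agent.Q60.D3 (AV IsHom)
open Pool.Agent.Q180.UW (mult IsUnitary IsCMField)
open Pool.Agent.Q60.D3H (KMult S_umu)

/-- The multiplicities of a linear combination of an operator and the identity. -/
lemma mult_comb {T : Type} [AddCommGroup T] [Module ℂ T] (C : T →ₗ[ℂ] T) (s t μ : ℂ)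
    (hs : s ≠ 0) : mult (s • C + t • (LinearMap.id : T →ₗ[ℂ] T)) (s * μ + t) = mult C μ := by
  unfold mult
  have h : s • C + t • (LinearMap.id : T →ₗ[ℂ] T) - (s * μ + t) • LinearMap.id =
      s • (C - μ • (LinearMap.id : T →ₗ[ℂ] T)) := by
    rw [smul_sub, add_smul, mul_smul]
    abel
  rw [h, LinearMap.ker_smul _ _ hs]

theorem umu : S_umu := by
  rintro A M' ⟨P, φ, C, n, hCM, hper, hP, hdim, hn, hcen, hmul, μ0, hμ0, hcop⟩
  obtain ⟨hirr, hdeg, r, hr⟩ := id hCM
  set a := P.coeff 2 with ha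
  set b := P.coeff 1 with hb
  set c := P.coeff 0 with hc
  have hPe : P = Polynomial.C a * X ^ 2 + Polynomial.C b * X + Polynomial.C c := by
    rw [Polynomial.as_sum_range_C_mul_X_pow P, hdeg]
    simp only [Finset.sum_range_succ, Finset.range_zero, Finset.sum_empty]
    rw [ha, hb, hc]
    ring
  have ha0 : a ≠ 0 := by
    intro h0
    have h1 : P.leadingCoeff = 0 := by rw [Polynomial.leadingCoeff, hdeg]; exact h0
    exact hirr.ne_zero (Polynomial.leadingCoeff_eq_zero.mp h1)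
  -- the discriminant
  set D : ℚ := b ^ 2 - 4 * a * c with hD
  have hDneg : D < 0 := by
    by_contra hcon
    push Not at hcon
    have hcon' : (0 : ℝ) ≤ (D : ℝ) := by exact_mod_cast hcon
    set ρ : ℝ := (-(b : ℝ) + Real.sqrt D) / (2 * a) with hρ
    have ha' : (a : ℝ) ≠ 0 := by exact_mod_cast ha0
    have hroot : (a : ℝ) * ρ ^ 2 + b * ρ + c = 0 := by
      have hs : Real.sqrt D ^ 2 = (D : ℝ) := Real.sq_sqrt hcon'
      have hD' : (D : ℝ) = (b : ℝ) ^ 2 - 4 * a * c := by rw [hD]; push_cast; ring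
      have h2 : 2 * (a : ℝ) * ρ + b = Real.sqrt D := by
        rw [hρ]; field_simp; ring
      have h3 : 4 * (a : ℝ) * ((a : ℝ) * ρ ^ 2 + b * ρ + c) = 0 := by
        have : 4 * (a : ℝ) * ((a : ℝ) * ρ ^ 2 + b * ρ + c) =
            (2 * (a : ℝ) * ρ + b) ^ 2 - ((b : ℝ) ^ 2 - 4 * a * c) := by ring
        rw [this, h2, hs, hD', sub_self]
      rcases mul_eq_zero.mp h3 with h4 | h4
      · exfalso
        exact (mul_ne_zero four_ne_zero ha') h4
      · exact h4
    have hz : aeval (ρ : ℂ) P = 0 := by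
      rw [hPe]
      simp only [map_add, map_mul, map_pow, aeval_C, aeval_X, eq_ratCast]
      have := congrArg (fun x : ℝ => (x : ℂ)) hroot
      simpa using this
    exact (hr _ hz).1 (Complex.conj_ofReal ρ)
  -- the natural number
  set q : ℕ := D.den with hq
  set p : ℕ := D.num.natAbs with hp
  have hqpos : 0 < q := D.den_pos
  have hnum : D.num < 0 := Rat.num_neg.mpr hDneg
  have hppos : 0 < p := Int.natAbs_pos.mpr hnum.ne
  have hpD : (p : ℚ) = -(D * q) := by
    have h1 : ((D.num.natAbs : ℤ) : ℚ) = ((-D.num : ℤ) : ℚ) := by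
      congr 1
      omega
    have h2 : (D.num : ℚ) = D * D.den := (Rat.mul_den_eq_num D).symm
    rw [hp, hq]
    rw [← Int.cast_natCast, h1, Int.cast_neg, h2]
  have hpq : ((p * q : ℕ) : ℚ) = -((b ^ 2 - 4 * a * c) * q ^ 2) := by
    push_cast
    rw [hpD, hD]
    ring
  have hpqC : ((p * q : ℕ) : ℂ) = -(((b : ℂ) ^ 2 - 4 * a * c) * q ^ 2) := by
    exact_mod_cast congrArg (fun x : ℚ => (x : ℂ)) hpq
  have key : ∀ w, (2 * a * q) • φ ((2 * a * q) • φ w + (b * q) • w) +
      (b * q) • ((2 * a * q) • φ w + (b * q) • w) = -(((p * q : ℕ) : ℚ) • w) := by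
    intro w
    have h0 : a • φ (φ w) + b • φ w + c • w = 0 := by
      have := LinearMap.congr_fun hP w
      rw [hPe] at this
      simpa [Module.algebraMap_end_apply, pow_two] using this
    have h1 : a • φ (φ w) = -(b • φ w) - c • w := by
      rw [eq_sub_iff_add_eq, eq_neg_iff_add_eq_zero, ← h0]; abel
    have h2 : (2 * a * q) • φ ((2 * a * q) • φ w + (b * q) • w) =
        (4 * a * q ^ 2) • (a • φ (φ w)) + (2 * a * b * q ^ 2) • φ w := by
      rw [map_add, map_smul, map_smul, smul_add, smul_smul, smul_smul, smul_smul]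
      congr 1 <;> congr 1 <;> ring
    rw [h2, h1, hpq]
    module
  -- the roots
  have hroot : ∀ μ : ℂ, aeval μ P = 0 ↔ (a : ℂ) * μ ^ 2 + b * μ + c = 0 := by
    intro μ
    rw [hPe]
    simp only [map_add, map_mul, map_pow, aeval_C, aeval_X, eq_ratCast]
  have haC : (a : ℂ) ≠ 0 := by exact_mod_cast ha0
  have hqC : (q : ℂ) ≠ 0 := by exact_mod_cast hqpos.ne'
  have e0 := (hroot μ0).1 hμ0
  have e1 : (a : ℂ) * (starRingEnd ℂ μ0) ^ 2 + b * starRingEnd ℂ μ0 + c = 0 := by
    have := congrArg (starRingEnd ℂ) e0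
    simpa using this
  have hne : μ0 - starRingEnd ℂ μ0 ≠ 0 := sub_ne_zero.2 (fun h => (hr _ hμ0).1 h.symm)
  have hsum : (a : ℂ) * (μ0 + starRingEnd ℂ μ0) + b = 0 := by
    have : (μ0 - starRingEnd ℂ μ0) * ((a : ℂ) * (μ0 + starRingEnd ℂ μ0) + b) = 0 := by
      linear_combination e0 - e1
    exact (mul_eq_zero.1 this).resolve_left hne
  have hs : (2 * (a : ℂ) * q) ≠ 0 := mul_ne_zero (mul_ne_zero two_ne_zero haC) hqC
  have m1 := mult_comb C (2 * (a : ℂ) * q) ((b : ℂ) * q) μ0 hs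
  have m2 := mult_comb C (2 * (a : ℂ) * q) ((b : ℂ) * q) (starRingEnd ℂ μ0) hs
  have hneg : (2 * (a : ℂ) * q) * starRingEnd ℂ μ0 + (b : ℂ) * q =
      -((2 * (a : ℂ) * q) * μ0 + (b : ℂ) * q) := by
    linear_combination (2 * (q : ℂ)) * hsum
  rw [hneg] at m2
  have hperq : ∀ (x : ℚ) (w : A.H), A.per (x • w) = (x : ℂ) • A.per w := by
    intro x w
    have := map_ratCast_smul A.per ℚ ℂ x w
    simpa using this
  refine ⟨max (mult C μ0) (mult C (starRingEnd ℂ μ0)),
    ⟨p * q, (2 * (a : ℂ) * q) * μ0 + (b : ℂ) * q, (2 * a * q) • φ + (b * q) • LinearMap.id,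
      (2 * (a : ℂ) * q) • C + ((b : ℂ) * q) • LinearMap.id, Nat.mul_pos hppos hqpos, ?_, ?_, ?_, ?_⟩,
    P, φ, C, n, hCM, hper, hP, hdim, hn, hcen, ?_, μ0, hμ0, hcop⟩
  · rw [hpqC]
    linear_combination (4 * (a : ℂ) * q ^ 2) * e0
  · intro w
    simp only [LinearMap.add_apply, LinearMap.smul_apply, LinearMap.id_apply, map_add, hperq, hper]
    push_cast
    rfl
  · intro w
    simpa using key w
  · rw [m1, m2]
  · intro μ hμ
    refine ⟨(hmul μ hμ).1, ?_⟩
    have e2 := (hroot μ).1 hμ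
    have : (μ - μ0) * (μ - starRingEnd ℂ μ0) = 0 := by
      have h5 : (a : ℂ) * ((μ - μ0) * (μ - starRingEnd ℂ μ0)) = 0 := by
        linear_combination e2 - e0 + (μ0 - μ) * hsum
      exact (mul_eq_zero.1 h5).resolve_left haC
    rcases mul_eq_zero.1 this with h6 | h6
    · rw [sub_eq_zero.1 h6]
      exact le_max_left _ _
    · rw [sub_eq_zero.1 h6]
      exact le_max_right _ _

end Pool.Agent.Q261.D3H
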